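import Pool.Agent.helper12.DD.Spec2

/-!
# Stage 2, module CLE: every irreducible character of a subgroup lies under an irreducible character
-/

set_option autoImplicit false

open Pool.Agent.helper49.Blk

namespace Pool.Agent.DD

theorem CLE : CLE_stmt := by
  classical
  intro A B _ _ _ _ j hj ψ hψ
  by_contra hcon
  have hcon2 : ∀ φ ∈ Irr B, ¬ Ovr j φ ψ := fun φ hφ h => hcon ⟨φ, hφ, h⟩
  have : Fintype A := Fintype.ofFinite A
  have : Fintype B := Fintype.ofFinite B
  have h0 : ∀ φ ∈ Irr B, ∑ x : A, ψ x * φ (j x)⁻¹ = 0 := by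
    intro φ hφ
    have h1 := hcon2 φ hφ
    unfold Ovr at h1
    rw [not_not, finsum_eq_sum_of_fintype] at h1
    rw [← h1, ← Equiv.sum_comp (Equiv.inv A)]
    refine Finset.sum_congr rfl fun x _ => ?_
    simp only [Equiv.inv_apply, map_inv, inv_inv]
    ring
  obtain ⟨ψ', hψ'⟩ : ∃ ψ' : B → ℂ, ∀ b, ψ' b = ∑ a : A, if j a = b then ψ a else 0 :=
    ⟨_, fun b => rfl⟩
  have hF : (fun b : B => ∑ c : B, ψ' (c * b * c⁻¹)) = 0 := by
    apply CPL B
    · intro g h
      refine Fintype.sum_equiv (Equiv.mulRight h) _ _ fun c => ?_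
      congr 1
      simp only [Equiv.coe_mulRight]
      group
    · intro φ hφ
      have hcl := ((IRF B).2 φ hφ).2
      have e1 : ∀ c : B, ∑ b : B, ψ' (c * b * c⁻¹) * φ b⁻¹ = 0 := by
        intro c
        have e2 : ∑ b : B, ψ' (c * b * c⁻¹) * φ b⁻¹ = ∑ b : B, ψ' b * φ b⁻¹ := by
          refine Fintype.sum_equiv (MulAut.conj c).toEquiv _ _ fun b => ?_
          have e3 : (MulAut.conj c).toEquiv b = c * b * c⁻¹ := rfl
          rw [e3, show (c * b * c⁻¹)⁻¹ = c * b⁻¹ * c⁻¹ by group, hcl]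
        rw [e2, ← h0 φ hφ]
        have e4 : ∀ b : B, ψ' b * φ b⁻¹ = ∑ a : A, if j a = b then ψ a * φ (j a)⁻¹ else 0 := by
          intro b
          rw [hψ', Finset.sum_mul]
          refine Finset.sum_congr rfl fun a _ => ?_
          by_cases h : j a = b
          · rw [if_pos h, if_pos h, h]
          · rw [if_neg h, if_neg h, zero_mul]
        rw [Finset.sum_congr rfl fun b _ => e4 b, Finset.sum_comm]
        refine Finset.sum_congr rfl fun a _ => ?_
        rw [Finset.sum_ite_eq Finset.univ (j a), if_pos (Finset.mem_univ _)]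
      rw [Finset.sum_congr rfl fun b _ => Finset.sum_mul _ _ _, Finset.sum_comm]
      exact Finset.sum_eq_zero fun c _ => e1 c
  have h1 : ∑ c : B, ψ' (c * 1 * c⁻¹) = 0 := congrFun hF 1
  have h2 : ψ' 1 = ψ 1 := by
    rw [hψ', Finset.sum_eq_single 1]
    · rw [if_pos (map_one j)]
    · intro a _ ha
      rw [if_neg]
      intro h
      exact ha (hj (h.trans (map_one j).symm))
    · intro h
      exact absurd (Finset.mem_univ _) h
  have h3 : ∀ c : B, ψ' (c * 1 * c⁻¹) = ψ 1 := by
    intro c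
    rw [mul_one, mul_inv_cancel, h2]
  rw [Finset.sum_congr rfl fun c _ => h3 c, Finset.sum_const, nsmul_eq_mul] at h1
  obtain ⟨n, hn, hn2⟩ := ((IRF A).2 ψ hψ).1
  rcases mul_eq_zero.1 h1 with h | h
  · have : Fintype.card B ≠ 0 := Fintype.card_ne_zero
    apply this
    rw [← Finset.card_univ]
    exact_mod_cast h
  · rw [hn2] at h
    have : n = 0 := by exact_mod_cast h
    omega

end Pool.Agent.DD
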